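import Pool.Agent.N880.HE.Stm
import Pool.Agent.H385R2.FlatM
import Pool.Agent.N880.HD.Blk

/-!
Project HE (helper880), part Blk (helper11): the large sieve for coefficients in a block,
conductors prime to `M` (after `H385.flat_ls_M` and helper650's `block_main`).
-/

set_option autoImplicit false

open Complex Filter Topology Set MeasureTheory

namespace Pool.Agent.N880.HE

open H385

open Flat in
theorem blockM_main : S_blockM := by
  intro M P hsf
  obtain ⟨C0, hC0, hLS⟩ := farey_large_sieve_M M P hsf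
  have hMP : Nat.Coprime M P := (Nat.squarefree_mul_iff.mp hsf).1
  have hsfP : Squarefree P := (Nat.squarefree_mul_iff.mp hsf).2.2
  have hP1 : 1 ≤ P := Nat.one_le_iff_ne_zero.mpr hsfP.ne_zero
  have hP1R : (1 : ℝ) ≤ P := by exact_mod_cast hP1
  have hc0' : 0 ≤ c0 := by unfold c0; positivity
  have hprodM : 0 ≤ ∏ p ∈ M.primeFactors, ((p : ℝ) / (p + 1)) :=
    Finset.prod_nonneg (fun p _ => by positivity)
  set c1 : ℝ := c0 * (∏ p ∈ M.primeFactors, ((p : ℝ) / (p + 1))) with hc1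
  have hc0 : 0 ≤ c1 := by positivity
  have hlogP : 0 ≤ Real.log P := Real.log_nonneg hP1R
  refine ⟨c1 * Real.log P + C0, by positivity, ?_⟩
  intro X Y M' H b hX hXY hb hbM ε hε hε1
  obtain ⟨N, hN⟩ : ∃ N, N = M' + H := ⟨_, rfl⟩
  rw [← hN]
  have hX0 : (0 : ℝ) < X := by exact_mod_cast hX
  have hX1 : (1 : ℝ) ≤ X := by exact_mod_cast hX
  have hY0 : (0 : ℝ) < Y := by exact_mod_cast (lt_of_lt_of_le hX hXY)
  have hlog : 0 ≤ Real.log ((Y : ℝ) / X) := by
    apply Real.log_nonneg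
    rw [le_div_iff₀ hX0, one_mul]
    exact_mod_cast hXY
  set K : ℝ := ∏ p ∈ P.primeFactors, kp p with hK
  set D : ℝ := ∏ p ∈ P.primeFactors, (1 - 1 / (p : ℝ) ^ 2) with hD
  set G : ℝ := ∑ n ∈ Finset.Icc 1 N, ‖b n‖ ^ 2 with hG
  have hG0 : 0 ≤ G := Finset.sum_nonneg (fun _ _ => by positivity)
  have hK1 : 1 ≤ K := Finset.one_le_prod
    (fun p hp => kp_one_le p (Nat.prime_of_mem_primeFactors hp))
  have hDp : ∀ p ∈ P.primeFactors, 0 ≤ (1 - 1 / (p : ℝ) ^ 2) ∧ (1 - 1 / (p : ℝ) ^ 2) ≤ 1 := by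
    intro p hp
    have h2 : (1 : ℝ) ≤ p := by exact_mod_cast (Nat.prime_of_mem_primeFactors hp).one_lt.le
    have h3 : 1 / (p : ℝ) ^ 2 ≤ 1 := by
      rw [div_le_one (by positivity)]
      nlinarith
    have h4 : 0 ≤ 1 / (p : ℝ) ^ 2 := by positivity
    constructor <;> linarith
  have hD0 : 0 ≤ D := Finset.prod_nonneg (fun p hp => (hDp p hp).1)
  have hD1 : D ≤ 1 := Finset.prod_le_one (fun p hp => (hDp p hp).1) (fun p hp => (hDp p hp).2)
  -- the farey side
  have hLS' := hLS X (P * Y) H ((X : ℝ) ^ 2) (fun n => b (M' + n)) hX (by nlinarith)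
    (by nlinarith) le_rfl
  rw [const_eq, ← hK, ← hD, ← HD.Blk_sq M' H b hbM, ← hN] at hLS'
  simp only [← HD.Blk_SS M' H b hbM, ← hN] at hLS'
  have hlog2 : Real.log (((P * Y : ℕ) : ℝ) / X) = Real.log P + Real.log ((Y : ℝ) / X) := by
    rw [Nat.cast_mul, mul_div_assoc, Real.log_mul (by positivity) (by positivity)]
  rw [hlog2] at hLS'
  set E : ℝ := ∑ q ∈ Finset.Ioc X (P * Y), (1 / (q : ℝ)) * EB N b q ^ 2 with hE
  have hE0 : 0 ≤ E := Finset.sum_nonneg (fun _ _ => by positivity)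
  set E' : ℝ := ∑ q ∈ (Finset.Ioc X (P * Y)).filter (fun q => Nat.Coprime q M),
    (1 / (q : ℝ)) * EB N b q ^ 2 with hE'
  have hEE : E' ≤ E := Finset.sum_le_sum_of_subset_of_nonneg (Finset.filter_subset _ _)
    (fun _ _ _ => by positivity)
  -- step 2
  have h2 : K * primFamM M X Y (fun q χ => ‖∑ n ∈ Finset.Icc 1 N, b n * χ (n : ZMod q)‖ ^ 2) ≤
      ∑ q ∈ (Finset.Ioc X Y).filter (fun q => Nat.Coprime q M),
        ∑ T ∈ (P.primeFactors.filter (fun p => ¬ p ∣ q)).powerset,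
        ff P N b (q * pr T) T := by
    have h21 : primFamM M X Y (fun q χ => ‖∑ n ∈ Finset.Icc 1 N, b n * χ (n : ZMod q)‖ ^ 2) =
        ∑ q ∈ (Finset.Ioc X Y).filter (fun q => Nat.Coprime q M),
          (1 / (q : ℝ) ^ 2) * PS N b q := rfl
    rw [h21, Finset.mul_sum]
    apply Finset.sum_le_sum
    intro q hq
    rw [Finset.mem_filter, Finset.mem_Ioc] at hq
    have h22 := mul_le_mul_of_nonneg_right (weight P q (by omega)) (PS_nonneg N b q)
    calc K * ((1 / (q : ℝ) ^ 2) * PS N b q) = (1 / (q : ℝ) ^ 2) * K * PS N b q := by ring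
      _ ≤ _ := h22
      _ = _ := by
        rw [Finset.sum_mul]
        apply Finset.sum_congr rfl
        intro T hT
        rw [Finset.mem_powerset] at hT
        have hTP : T ⊆ P.primeFactors := hT.trans (Finset.filter_subset _ _)
        unfold ff
        rw [Nat.mul_div_cancel q (pr_pos hTP)]
        ring
  have h3 := h2.trans (reindexM M P hsfP hMP X Y N b)
  have h4 : ∑ q' ∈ (Finset.Ioc X (P * Y)).filter (fun q => Nat.Coprime q M),
        ∑ T ∈ UT P q', ff P N b q' T ≤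
      (1 + ε) * ∑ q ∈ (Finset.Ioc X (P * Y)).filter (fun q => Nat.Coprime q M),
        (hP P q / (q : ℝ) ^ 2) *
        ∑ b' ∈ (Finset.range q).filter (fun b => Nat.Coprime b q), ‖SS N b ((b' : ℝ) / q)‖ ^ 2
      + (2 / ε) * E' := by
    rw [hE', Finset.mul_sum, Finset.mul_sum, ← Finset.sum_add_distrib]
    apply Finset.sum_le_sum
    intro q' hq'
    rw [Finset.mem_filter, Finset.mem_Ioc] at hq'
    have hq1 : 1 ≤ q' := by omega
    have hq0 : (0 : ℝ) < q' := by exact_mod_cast hq1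
    have hh0 := hP_nonneg P q'
    have hh1 := hP_le_one P q'
    have h41 : 0 ≤ hP P q' / (q' : ℝ) ^ 2 := by positivity
    unfold ff
    rw [← Finset.mul_sum]
    refine (mul_le_mul_of_nonneg_left (lemC P hsfP q' hq1 N b hb ε hε hε1) h41).trans ?_
    rw [mul_add]
    have h42 : hP P q' / (q' : ℝ) ^ 2 * (2 / ε * (Nat.totient q' : ℝ) * EB N b q' ^ 2) ≤
        2 / ε * (1 / (q' : ℝ) * EB N b q' ^ 2) := by
      have h43 : hP P q' / (q' : ℝ) ^ 2 * (Nat.totient q' : ℝ) ≤ 1 / (q' : ℝ) := by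
        have h44 : (Nat.totient q' : ℝ) ≤ q' := by exact_mod_cast Nat.totient_le q'
        have h45 : hP P q' * (Nat.totient q' : ℝ) ≤ 1 * q' :=
          mul_le_mul hh1 h44 (Nat.cast_nonneg _) zero_le_one
        rw [div_mul_eq_mul_div, div_le_div_iff₀ (by positivity) hq0]
        nlinarith
      have h46 : 0 ≤ 2 / ε * EB N b q' ^ 2 := by positivity
      have := mul_le_mul_of_nonneg_right h43 h46
      nlinarith [this]
    nlinarith [h42]
  have h5 := h3.trans h4
  have h6 : 0 ≤ 1 + ε := by linarith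
  have h7 := mul_le_mul_of_nonneg_left hLS' h6
  set ex : ℝ := Real.exp (Real.pi * H / (X : ℝ) ^ 2) with hex
  have hex0 : 0 ≤ ex := (Real.exp_pos _).le
  have hK0 : 0 < K := by linarith
  have hgoal : K * primFamM M X Y
        (fun q χ => ‖∑ n ∈ Finset.Icc 1 N, b n * χ (n : ZMod q)‖ ^ 2) ≤
      K * ((1 + ε) * ex * (c1 * D * Real.log ((Y : ℝ) / X) + (c1 * Real.log P + C0)) * G
        + (2 / ε) * E) := by
    have h8 : c1 * (K * D) * (Real.log P + Real.log ((Y : ℝ) / X)) + C0 ≤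
        K * (c1 * D * Real.log ((Y : ℝ) / X) + (c1 * Real.log P + C0)) := by
      have h81 : c1 * Real.log P * D ≤ c1 * Real.log P * 1 :=
        mul_le_mul_of_nonneg_left hD1 (by positivity)
      have h82 : K * (c1 * Real.log P * D) ≤ K * (c1 * Real.log P * 1) :=
        mul_le_mul_of_nonneg_left h81 hK0.le
      have h83 : 1 * C0 ≤ K * C0 := mul_le_mul_of_nonneg_right hK1 hC0.le
      nlinarith
    have h9 : (1 + ε) * (ex * (c1 * (K * D) * (Real.log P + Real.log ((Y : ℝ) / X)) + C0) * G) ≤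
        K * ((1 + ε) * ex * (c1 * D * Real.log ((Y : ℝ) / X) + (c1 * Real.log P + C0)) * G) := by
      have h91 : 0 ≤ (1 + ε) * ex * G := by positivity
      have := mul_le_mul_of_nonneg_right h8 h91
      nlinarith [this]
    have h10 : (2 / ε) * E' ≤ K * ((2 / ε) * E) := by
      have h101 : (2 / ε) * E' ≤ (2 / ε) * E := mul_le_mul_of_nonneg_left hEE (by positivity)
      have : 0 ≤ (2 / ε) * E := by positivity
      nlinarith
    linarith
  exact le_of_mul_le_mul_left hgoal hK0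

end Pool.Agent.N880.HE
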