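import Pool.Agent.N880.HE.Stm
import Pool.Agent.N880.HD.Blo
import Pool.Agent.H385R2.PrimSetM

set_option autoImplicit false

open Complex Filter Topology MeasureTheory Set

namespace Pool.Agent.N880.HE

open H385 (c0 primFamM bt wt Rw WM IX primSetM primFamM_eq)
open Pool.Agent.N880.QF (PP mem_PP)
open Pool.Agent.N880.HD (block_int)

/-- the block estimate for the main primes in a short logarithmic block -/
theorem block_estM {e0 K ε : ℝ} {B Q0 : ℕ}
    (hp : ∀ (X Y M H : ℕ) (b : ℕ → ℂ), 1 ≤ X → K * X ≤ Y → (H : ℝ) ≤ e0 * (X : ℝ) ^ 2 →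
      (∀ n, b n ≠ 0 → n.Prime ∧ B < n) → (∀ n, n ≤ M → b n = 0) →
      primFamM Q0 X Y (fun q χ => ‖∑ n ∈ Finset.Icc 1 (M + H), b n * χ (n : ZMod q)‖ ^ 2) ≤
        (1 + ε) * WM Q0 X Y * ∑ n ∈ Finset.Icc 1 (M + H), ‖b n‖ ^ 2)
    (X Y : ℕ) (hX : 1 ≤ X) (hXY : K * X ≤ Y) (e L u ρ : ℝ) (hρ : 0 < ρ) (hρ1 : ρ ≤ 1)
    (hε : 0 ≤ ε)
    (hlen : 12 * ρ * Real.exp (u + e * L) + 1 ≤ e0 * (X : ℝ) ^ 2)
    (v : ℝ) (x : ℕ → ℂ) (hx : ∀ p : ℕ, ρ < |Real.log p - v| → x p = 0) :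
    ∑ i ∈ primSetM Q0 X Y, 1 / (i.1 : ℝ) ^ 2 *
        ‖∑ p ∈ PP B e L u, i.2 (p : ZMod i.1) * x p‖ ^ 2 ≤
      (1 + ε) * WM Q0 X Y * ∑ p ∈ PP B e L u, ‖x p‖ ^ 2 := by
  classical
  have hW0 : 0 ≤ WM Q0 X Y := H385.primFamM_nonneg _ _ _ _ (fun _ _ => zero_le_one)
  by_cases hex : ∃ p0 ∈ PP B e L u, |Real.log p0 - v| ≤ ρ
  · obtain ⟨p0, hp0, hpv⟩ := hex
    obtain ⟨g1, g2, g3⟩ := mem_PP hp0
    have hv : v ≤ u + e * L + ρ := by
      have h1 := (abs_le.1 hpv).1
      have h2 := (abs_le.1 g3).2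
      linarith
    obtain ⟨M, H, h1, h2, h3⟩ := block_int (v := v) hρ hρ1
    set b : ℕ → ℂ := fun n => if n ∈ PP B e L u ∧ |Real.log n - v| ≤ ρ then x n else 0 with hb
    have hHlen : (H : ℝ) ≤ e0 * (X : ℝ) ^ 2 := by
      refine h3.trans (le_trans ?_ hlen)
      have e1 : Real.exp v ≤ 3 * Real.exp (u + e * L) := by
        calc Real.exp v ≤ Real.exp (u + e * L + 1) := Real.exp_le_exp.2 (by linarith)
          _ = Real.exp (u + e * L) * Real.exp 1 := Real.exp_add _ _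
          _ ≤ Real.exp (u + e * L) * 3 :=
            mul_le_mul_of_nonneg_left (by linarith [Real.exp_one_lt_d9]) (Real.exp_pos _).le
          _ = _ := by ring
      have := mul_le_mul_of_nonneg_left e1 (show 0 ≤ 4 * ρ by positivity)
      linarith
    have hbn : ∀ n, b n ≠ 0 → n ∈ PP B e L u ∧ |Real.log n - v| ≤ ρ := by
      intro n hn
      by_contra hcon
      exact hn (by simp only [hb]; rw [if_neg hcon])
    have hmem : ∀ n, b n ≠ 0 → n ∈ Finset.Icc 1 (M + H) ∧ M < n := by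
      intro n hn
      obtain ⟨k1, k2⟩ := hbn n hn
      obtain ⟨k3, k4, k5⟩ := mem_PP k1
      have hn0 : (0 : ℝ) < n := by exact_mod_cast k3.pos
      have k6 := abs_le.1 k2
      have k7 : Real.exp (v - ρ) ≤ n := by
        rw [← Real.le_log_iff_exp_le hn0]; linarith [k6.1]
      have k8 : (n : ℝ) ≤ Real.exp (v + ρ) := by
        rw [← Real.log_le_iff_le_exp hn0]; linarith [k6.2]
      refine ⟨Finset.mem_Icc.2 ⟨k3.pos, h2 n k8⟩, ?_⟩
      by_contra hcon
      have := h1 n (by omega)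
      linarith
    have h4 := hp X Y M H b hX hXY hHlen (fun n hn => by
        obtain ⟨k1, k2⟩ := hbn n hn
        obtain ⟨k3, k4, k5⟩ := mem_PP k1
        exact ⟨k3, k4⟩) (fun n hn => by
        by_contra hcon
        have := (hmem n hcon).2
        omega)
    -- compare sums
    have hsum : ∀ (f : ℕ → ℂ → ℂ), (∀ n, f n 0 = 0) → 
        ∑ p ∈ PP B e L u, f p (x p) = ∑ n ∈ Finset.Icc 1 (M + H), f n (b n) := by
      intro f hf
      have e1 : ∑ p ∈ PP B e L u, f p (x p) = ∑ p ∈ PP B e L u, f p (b p) := by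
        refine Finset.sum_congr rfl fun p hpp => ?_
        by_cases hc : |Real.log p - v| ≤ ρ
        · simp only [hb]; rw [if_pos ⟨hpp, hc⟩]
        · have hb0 : b p = 0 := by simp only [hb]; rw [if_neg (fun h => hc h.2)]
          rw [hb0, hx p (not_le.1 hc)]
      rw [e1]
      have e2 : ∑ p ∈ PP B e L u, f p (b p) =
          ∑ p ∈ PP B e L u ∪ Finset.Icc 1 (M + H), f p (b p) := by
        refine Finset.sum_subset Finset.subset_union_left fun n _ hn => ?_
        have : b n = 0 := by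
          by_contra hcon
          exact hn (hbn n hcon).1
        rw [this, hf]
      have e3 : ∑ n ∈ Finset.Icc 1 (M + H), f n (b n) =
          ∑ p ∈ PP B e L u ∪ Finset.Icc 1 (M + H), f p (b p) := by
        refine Finset.sum_subset Finset.subset_union_right fun n _ hn => ?_
        have : b n = 0 := by
          by_contra hcon
          exact hn (hmem n hcon).1
        rw [this, hf]
      rw [e2, e3]
    have hsumR : ∑ p ∈ PP B e L u, ‖x p‖ ^ 2 = ∑ n ∈ Finset.Icc 1 (M + H), ‖b n‖ ^ 2 := by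
      have := hsum (fun _ z => ((‖z‖ ^ 2 : ℝ) : ℂ)) (fun n => by simp)
      have h5 : ((∑ p ∈ PP B e L u, ‖x p‖ ^ 2 : ℝ) : ℂ) =
        ((∑ n ∈ Finset.Icc 1 (M + H), ‖b n‖ ^ 2 : ℝ) : ℂ) := by
        push_cast
        push_cast at this
        exact this
      exact_mod_cast h5
    rw [hsumR]
    rw [primFamM_eq] at h4
    refine le_trans (le_of_eq (Finset.sum_congr rfl fun i _ => ?_)) h4
    congr 3
    rw [hsum (fun n z => i.2 (n : ZMod i.1) * z) (fun n => by simp)]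
    exact Finset.sum_congr rfl fun n _ => mul_comm _ _
  · push Not at hex
    have h1 : ∀ p ∈ PP B e L u, x p = 0 := fun p hpp => hx p (hex p hpp)
    have h2 : ∀ i : IX, ∑ p ∈ PP B e L u, i.2 (p : ZMod i.1) * x p = 0 :=
      fun i => Finset.sum_eq_zero fun p hpp => by rw [h1 p hpp, mul_zero]
    have h3 : ∑ i ∈ primSetM Q0 X Y, 1 / (i.1 : ℝ) ^ 2 *
        ‖∑ p ∈ PP B e L u, i.2 (p : ZMod i.1) * x p‖ ^ 2 = 0 :=
      Finset.sum_eq_zero fun i _ => by rw [h2 i]; simp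
    rw [h3]
    exact mul_nonneg (mul_nonneg (by linarith) hW0) (Finset.sum_nonneg fun _ _ => by positivity)

end Pool.Agent.N880.HE
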