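import Pool.Agent.N880.HE.Stm
import Pool.Agent.N880.HD.Prm
import Pool.Agent.H385R2.PrimLSM
import Pool.Agent.H385R2.PrimMassM
import Pool.Agent.H385R2.FinDB

set_option autoImplicit false

open Complex Filter Topology MeasureTheory Set

namespace Pool.Agent.N880.HE

open H385 (c0 primFamM bt wt Rw WM cM cM_pos)
open Pool.Agent.N880.HD (S_cop exp_le_one_add)

theorem primM_main (hblk : S_blockM) (hcop : S_cop) : S_primM := by
  intro M hM ε hε hε1
  set e : ℝ := ε / 20 with he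
  have he0 : 0 < e := by positivity
  have he1 : e ≤ 1 := by rw [he]; linarith
  have he2 : e ≤ 1 / 20 := by rw [he]; linarith
  obtain ⟨P, hMP, hPsf, hPe⟩ := H385.PrimLS.euler_exists_M M hM e he0
  have hP1 : 1 ≤ P := Nat.pos_of_ne_zero hPsf.ne_zero
  obtain ⟨C, hC, hb⟩ := hblk M P hMP
  obtain ⟨C4, hC4, hmass⟩ := H385.prim_mass_M M hM
  have hc0' : 0 < c0 := by unfold c0; positivity
  have hcM := cM_pos M hM
  have hcMeq := H385.PrimLS.cM_eq M
  set B : ℕ := P + ⌈8 / (e ^ 2 * cM M)⌉₊ + 1 with hB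
  have hBP : P ≤ B := by omega
  have hB1 : 1 ≤ B := by omega
  have hBr : 8 / (e ^ 2 * cM M) ≤ (B : ℝ) := by
    have := Nat.le_ceil (8 / (e ^ 2 * cM M))
    have h2 : ((⌈8 / (e ^ 2 * cM M)⌉₊ : ℕ) : ℝ) ≤ (B : ℝ) := by exact_mod_cast (by omega)
    linarith
  have hB0 : (0 : ℝ) < B := by exact_mod_cast hB1
  set Kl : ℝ := 1 + Real.log P + (3 * C4 + C) / (e * cM M) with hKl
  have hlogP : 0 ≤ Real.log P := Real.log_nonneg (by exact_mod_cast hP1)
  have hKl0 : 0 ≤ (3 * C4 + C) / (e * cM M) := by positivity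
  have hKl1 : 1 ≤ Kl := by rw [hKl]; linarith
  refine ⟨B, Real.exp Kl, e / 8, hB1, Real.one_le_exp (by linarith), by positivity, ?_⟩
  intro X Y M' H b hX hKX hH hsupp hM'
  have hXpos : (0 : ℝ) < X := by exact_mod_cast hX
  have hXYr : (X : ℝ) ≤ Y := by
    have : (1 : ℝ) * X ≤ Real.exp Kl * X :=
      mul_le_mul_of_nonneg_right (Real.one_le_exp (by linarith)) hXpos.le
    linarith
  have hXY : X ≤ Y := by exact_mod_cast hXYr
  have hYpos : (0 : ℝ) < Y := by linarith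
  set 𝓛 : ℝ := Real.log ((Y : ℝ) / X) with h𝓛
  have h𝓛K : Kl ≤ 𝓛 := by
    rw [h𝓛, Real.le_log_iff_exp_le (by positivity), le_div_iff₀ hXpos]
    exact hKX
  have h𝓛0 : 0 < 𝓛 := by linarith
  have hWlow := (abs_le.mp (hmass X Y hX hXY)).1
  have hWlow' : cM M * 𝓛 - C4 ≤ WM M X Y := by
    have : primFamM M X Y (fun _ _ => 1) = WM M X Y := rfl
    rw [this] at hWlow; linarith
  have hW0 : 0 ≤ WM M X Y := H385.primFamM_nonneg _ _ _ _ (fun _ _ => zero_le_one)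
  set S : ℝ := ∑ n ∈ Finset.Icc 1 (M' + H), ‖b n‖ ^ 2 with hS
  have hS0 : 0 ≤ S := Finset.sum_nonneg fun _ _ => by positivity
  have h1 := hb X Y M' H b hX hXY (fun n hn => by
    by_contra hbn
    obtain ⟨hp, hBn⟩ := hsupp n hbn
    apply hn
    rw [hp.coprime_iff_not_dvd]
    intro hd
    have := Nat.le_of_dvd (by omega) hd
    omega) hM' e he0 he1
  have h2 := hcop B X (P * Y) (M' + H) (fun n => ‖b n‖) hB1 hX
    (hXY.trans (Nat.le_mul_of_pos_left Y hP1)) (fun n => norm_nonneg _)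
    (fun n hn => hsupp n (norm_ne_zero_iff.1 hn))
  have hlogPY : Real.log (((P * Y : ℕ) : ℝ) / X) = Real.log P + 𝓛 := by
    rw [h𝓛, ← Real.log_mul (by exact_mod_cast (by omega : P ≠ 0)) (by positivity)]
    push_cast
    congr 1
    ring
  rw [hlogPY] at h2
  have h3q : 3 * C4 + C ≤ e * cM M * 𝓛 := by
    have : (3 * C4 + C) / (e * cM M) ≤ 𝓛 := by linarith
    rw [div_le_iff₀ (by positivity)] at this; linarith
  -- first part
  have hexp : Real.exp (Real.pi * H / (X : ℝ) ^ 2) ≤ 1 + e := by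
    refine exp_le_one_add he0 he1 ?_
    rw [div_le_iff₀ (by positivity)]
    have h3 : Real.pi * H ≤ 4 * (e / 8 * (X : ℝ) ^ 2) :=
      mul_le_mul Real.pi_lt_four.le hH (by positivity) (by norm_num)
    linarith
  have hprodM : 0 ≤ ∏ p ∈ M.primeFactors, ((p : ℝ) / (p + 1)) :=
    Finset.prod_nonneg (fun p _ => by positivity)
  have hDD : 0 ≤ ∏ p ∈ P.primeFactors, (1 - 1 / (p : ℝ) ^ 2) := by
    refine Finset.prod_nonneg fun p hp => ?_
    have hp1 : (1 : ℝ) ≤ p := by exact_mod_cast (Nat.prime_of_mem_primeFactors hp).one_le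
    have : 1 / (p : ℝ) ^ 2 ≤ 1 := by
      rw [div_le_one (by positivity)]
      nlinarith
    linarith
  have hD0 : 0 ≤ c0 * (∏ p ∈ M.primeFactors, ((p : ℝ) / (p + 1))) *
      (∏ p ∈ P.primeFactors, (1 - 1 / (p : ℝ) ^ 2)) * 𝓛 := by positivity
  have hD1W : (1 + e) * Real.exp (Real.pi * H / (X : ℝ) ^ 2) *
        (c0 * (∏ p ∈ M.primeFactors, ((p : ℝ) / (p + 1))) *
          (∏ p ∈ P.primeFactors, (1 - 1 / (p : ℝ) ^ 2)) * 𝓛 + C) ≤ (1 + 11 * e) * WM M X Y := by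
    have h0 : c0 * (∏ p ∈ M.primeFactors, ((p : ℝ) / (p + 1))) *
        (∏ p ∈ P.primeFactors, (1 - 1 / (p : ℝ) ^ 2)) * 𝓛 ≤ cM M * (1 + e) * 𝓛 := by
      have k1 := mul_le_mul_of_nonneg_left hPe
        (show 0 ≤ c0 * (∏ p ∈ M.primeFactors, ((p : ℝ) / (p + 1))) by positivity)
      have k2 := mul_le_mul_of_nonneg_right k1 h𝓛0.le
      refine k2.trans (le_of_eq ?_)
      rw [← hcMeq]
      ring
    have h1 : c0 * (∏ p ∈ M.primeFactors, ((p : ℝ) / (p + 1))) *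
        (∏ p ∈ P.primeFactors, (1 - 1 / (p : ℝ) ^ 2)) * 𝓛 + C ≤
        (1 + 2 * e) * WM M X Y := by
      have h3 : (1 + 2 * e) * (cM M * 𝓛 - C4) ≤ (1 + 2 * e) * WM M X Y :=
        mul_le_mul_of_nonneg_left hWlow' (by linarith)
      have h4 : (1 + 2 * e) * (cM M * 𝓛 - C4) = cM M * (1 + e) * 𝓛 + e * cM M * 𝓛 -
        (1 + 2 * e) * C4 := by ring
      have h5 : (1 + 2 * e) * C4 ≤ 3 * C4 := mul_le_mul_of_nonneg_right (by linarith) hC4.le
      linarith
    have h6 : (1 + e) * Real.exp (Real.pi * H / (X : ℝ) ^ 2) *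
        (c0 * (∏ p ∈ M.primeFactors, ((p : ℝ) / (p + 1))) *
          (∏ p ∈ P.primeFactors, (1 - 1 / (p : ℝ) ^ 2)) * 𝓛 + C) ≤
        (1 + e) * (1 + e) * ((1 + 2 * e) * WM M X Y) := by
      refine mul_le_mul ?_ h1 (by positivity) (by positivity)
      exact mul_le_mul_of_nonneg_left hexp (by linarith)
    refine h6.trans ?_
    have h7 : (1 + e) * (1 + e) * (1 + 2 * e) ≤ 1 + 11 * e := by
      have g1 : e ^ 2 ≤ e := pow_le_of_le_one he0.le he1 two_ne_zero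
      have g2 : e ^ 3 ≤ e := pow_le_of_le_one he0.le he1 three_ne_zero
      have g3 : (1 + e) * (1 + e) * (1 + 2 * e) = 1 + 4 * e + 5 * e ^ 2 + 2 * e ^ 3 := by ring
      rw [g3]; linarith
    calc _ = ((1 + e) * (1 + e) * (1 + 2 * e)) * WM M X Y := by ring
      _ ≤ _ := mul_le_mul_of_nonneg_right h7 hW0
  -- second part
  have hpart2 : (2 / e) * ((2 / (B : ℝ)) * (1 + (Real.log P + 𝓛)) * S) ≤ (2 * e) * WM M X Y * S := by
    have g1 : 1 + (Real.log P + 𝓛) ≤ 2 * 𝓛 := by linarith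
    have g2 : 2 / (B : ℝ) ≤ e ^ 2 * cM M / 4 := by
      rw [div_le_iff₀ hB0]
      rw [div_le_iff₀ (by positivity)] at hBr
      linarith
    have g3 : (2 / (B : ℝ)) * (1 + (Real.log P + 𝓛)) ≤ e ^ 2 * cM M / 4 * (2 * 𝓛) := by
      refine mul_le_mul g2 g1 (by positivity) (by positivity)
    have g4 : (2 / e) * ((2 / (B : ℝ)) * (1 + (Real.log P + 𝓛))) ≤ e * (cM M * 𝓛) := by
      calc _ ≤ (2 / e) * (e ^ 2 * cM M / 4 * (2 * 𝓛)) := mul_le_mul_of_nonneg_left g3 (by positivity)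
        _ = _ := by field_simp; ring
    have g5 : cM M * 𝓛 ≤ 2 * WM M X Y := by
      have k1 : C4 ≤ e * (cM M * 𝓛) := by linarith
      have k2 : e * (cM M * 𝓛) ≤ 1 / 20 * (cM M * 𝓛) :=
        mul_le_mul_of_nonneg_right he2 (by positivity)
      linarith
    have g6 : e * (cM M * 𝓛) ≤ 2 * e * WM M X Y := by
      have := mul_le_mul_of_nonneg_left g5 he0.le
      linarith
    calc _ = ((2 / e) * ((2 / (B : ℝ)) * (1 + (Real.log P + 𝓛)))) * S := by ring
      _ ≤ _ := mul_le_mul_of_nonneg_right (g4.trans g6) hS0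
  have hfin : (1 + 11 * e) * WM M X Y * S + (2 * e) * WM M X Y * S ≤ (1 + ε) * WM M X Y * S := by
    have : 0 ≤ WM M X Y * S := mul_nonneg hW0 hS0
    have h9 : (1 + 11 * e) * WM M X Y * S + (2 * e) * WM M X Y * S = (1 + 13 * e) * (WM M X Y * S) := by
      ring
    rw [h9, mul_assoc]
    refine mul_le_mul_of_nonneg_right ?_ this
    rw [he]; linarith
  refine h1.trans (le_trans (add_le_add ?_ ?_) hfin)
  · exact mul_le_mul_of_nonneg_right hD1W hS0
  · exact le_trans (mul_le_mul_of_nonneg_left h2 (by positivity)) hpart2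

end Pool.Agent.N880.HE
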