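import Pool.Agent.N880.HE.Blo
import Pool.Agent.N880.HE.Prm
import Pool.Agent.N880.HD.Ms

/-! # The mean square over the twists by all primitive characters -/

set_option autoImplicit false

open Complex Filter Topology MeasureTheory Set

namespace Pool.Agent.N880.HE

open H385 (c0 primFamM bt wt Rw WM IX primSetM primFamM_eq bt_norm wt_nonneg wt_le_one bt_sq_int
  wt_sq_int bt_cont)
open Pool.Agent.N880.QF (PP mem_PP yy yy_sq yy_abs card_PP sq_add_le)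
open Pool.Agent.N880.HD (S_gauss S_winC main_sum_integrable thr num_ms)
open W388 (SWu)

lemma swu_term_le (c : ℕ → ℂ) {D : ℝ} (hD : 1 ≤ D) (hc : ∀ n, IsPrimePow n → ‖c n‖ ≤ D) (b u : ℝ)
    (n : ℕ) : ArithmeticFunction.vonMangoldt n ^ 2 * ‖c n‖ ^ 2 / n *
      Real.exp (-(b * (u - Real.log n) ^ 2)) ≤
    D ^ 2 * (ArithmeticFunction.vonMangoldt n ^ 2 / n * Real.exp (-(b * (u - Real.log n) ^ 2))) := by
  by_cases h : IsPrimePow n
  · have h1 : ‖c n‖ ^ 2 ≤ D ^ 2 := pow_le_pow_left₀ (norm_nonneg _) (hc n h) 2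
    calc _ = ‖c n‖ ^ 2 * (ArithmeticFunction.vonMangoldt n ^ 2 / n *
          Real.exp (-(b * (u - Real.log n) ^ 2))) := by ring
      _ ≤ _ := mul_le_mul_of_nonneg_right h1 (by positivity)
  · have h1 : ArithmeticFunction.vonMangoldt n = 0 := ArithmeticFunction.vonMangoldt_eq_zero_iff.2 h
    rw [h1]
    simp

lemma swu1_summable (c : ℕ → ℂ) {D : ℝ} (hD : 1 ≤ D) (hc : ∀ n, IsPrimePow n → ‖c n‖ ≤ D) (u : ℝ) :
    Summable (fun n : ℕ => ArithmeticFunction.vonMangoldt n ^ 2 * ‖c n‖ ^ 2 / n *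
      Real.exp (-(1 * (u - Real.log n) ^ 2))) := by
  refine Summable.of_nonneg_of_le (fun n => by positivity) (swu_term_le c hD hc 1 u) ?_
  refine Summable.mul_left _ ?_
  refine (Pool.Agent.N7.MainC.inner_summable (c := 1) one_pos u).congr fun n => ?_
  rw [one_mul, one_mul]

lemma swu1_le (c : ℕ → ℂ) {D : ℝ} (hD : 1 ≤ D) (hc : ∀ n, IsPrimePow n → ‖c n‖ ≤ D) (u : ℝ) :
    SWu c 1 u ≤ D ^ 2 * Pool.Agent.N7.MainC.inner 1 u := by
  unfold SWu Pool.Agent.N7.MainC.inner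
  rw [one_pow, one_mul, ← tsum_mul_left]
  refine Summable.tsum_le_tsum (fun n => ?_) (swu1_summable c hD hc u)
    ((Pool.Agent.N7.MainC.inner_summable (c := 1) one_pos u).mul_left _)
  have := swu_term_le c hD hc 1 u n
  rw [one_mul] at this ⊢
  rw [one_mul]
  exact this

lemma swu1_nonneg (c : ℕ → ℂ) (u : ℝ) : 0 ≤ SWu c 1 u := tsum_nonneg fun n => by positivity

set_option maxHeartbeats 4000000 in
theorem msE_main (hprim : S_primM) (hgauss : S_gauss) (hwin : S_winC)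
    (hrest : Pool.Agent.N880.QF.S_rest) : S_msE := by
  intro Q0 hQ0 c D hD1 hc τ s hτ hs hs1
  have hD0 : 0 < D := by linarith
  obtain ⟨δ, hδ⟩ : ∃ δ, δ = s / 20 := ⟨_, rfl⟩
  have hδ0 : 0 < δ := by rw [hδ]; positivity
  have hδ1 : δ ≤ 1 := by rw [hδ]; linarith
  obtain ⟨B, K, e0, hB1, hK1, he0, hp⟩ := hprim Q0 hQ0 δ hδ0 hδ1
  obtain ⟨Cg, hCg, hg⟩ := hgauss δ hδ0
  obtain ⟨C2, κ0, d0, hC2, hκ0, hd0, hw⟩ := hwin δ hδ0
  obtain ⟨CR, hCR, hr⟩ := hrest B (s / 8) (by positivity)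
  obtain ⟨C3, hC3, hwt⟩ := wt_sq_int
  obtain ⟨C5, hC5, hcr⟩ := H385.lam_sq_crude
  obtain ⟨L1, hL1⟩ := thr (κ0 := κ0) (d0 := d0) hs he0 hCg hδ0
  refine ⟨K, 12 * C2 * (D ^ 2 * C5) + 2 * C2 * (D ^ 2 * (4 * Real.exp 144)) +
      (1 + 1 / δ) * (D * CR) ^ 2 * (1 + C3),
    max 3 (max (Real.exp L1) (2 / e0)), hK1, by positivity, le_max_left _ _, ?_⟩
  intro X Y T u hX hKX hT1 hTL hTX hu0 hu
  have hX3 : (3 : ℝ) ≤ X := (le_max_left _ _).trans hX
  have hXL1 : Real.exp L1 ≤ X := ((le_max_left _ _).trans (le_max_right _ _)).trans hX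
  have hXe0 : 2 / e0 ≤ X := ((le_max_right _ _).trans (le_max_right _ _)).trans hX
  have hX0 : (0 : ℝ) < X := by linarith
  have hXn : 1 ≤ X := by exact_mod_cast hX0
  have hT0 : 0 < T := by linarith
  obtain ⟨lX, hlX⟩ : ∃ lX, lX = Real.log X := ⟨_, rfl⟩
  obtain ⟨lT, hlT⟩ : ∃ lT, lT = Real.log T := ⟨_, rfl⟩
  have hLeq : Real.log (X * T) = lX + lT := by
    rw [Real.log_mul hX0.ne' hT0.ne', hlX, hlT]
  obtain ⟨L, hL⟩ : ∃ L, L = Real.log (X * T) := ⟨_, rfl⟩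
  rw [← hL] at hTL hu
  rw [← hL] at hLeq
  have hlT0 : 0 ≤ lT := by rw [hlT]; exact Real.log_nonneg hT1
  have hlX1 : L1 ≤ lX := by rw [hlX, Real.le_log_iff_exp_le hX0]; exact hXL1
  have hlX0 : 0 ≤ lX := by rw [hlX]; exact Real.log_nonneg (by linarith)
  have hlTX : lT ≤ τ * lX := by
    have := Real.log_le_log hT0 hTX
    rw [Real.log_rpow hX0] at this
    rw [hlT, hlX]; exact this
  obtain ⟨t1, t2, t3, t4, t5⟩ := hL1 L (by linarith)
  have hL0 : 0 < L := by linarith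
  have hh1 : 1 ≤ (2 + τ) / (1 + τ) := by
    rw [le_div_iff₀ (by linarith)]; linarith
  have hh2 : (2 + τ) / (1 + τ) ≤ 2 := by
    rw [div_le_iff₀ (by linarith)]; linarith
  have hhL : (2 + τ) / (1 + τ) * L ≤ 2 * lX + lT := by
    rw [div_mul_eq_mul_div, div_le_iff₀ (by linarith), hLeq]
    nlinarith
  have hu2 : u ≤ (2 + τ) / (1 + τ) * L - s * L := by
    have e1 : (1 - s) * ((2 + τ) / (1 + τ)) * L =
      (2 + τ) / (1 + τ) * L - s * ((2 + τ) / (1 + τ) * L) := by ring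
    have e2 : L ≤ (2 + τ) / (1 + τ) * L := le_mul_of_one_le_left hL0.le hh1
    have e3 := mul_le_mul_of_nonneg_left e2 hs.le
    linarith
  have hsL : 0 ≤ s * L := by positivity
  have hu2L : u ≤ 2 * L := by
    have := mul_le_mul_of_nonneg_right hh2 hL0.le
    linarith
  have hexp1 : u + s / 8 * (2 * L) ≤ 2 * lX + lT - 3 / 4 * s * L := by linarith
  have hexp2 : u + s / 8 * (2 * L) ≤ 3 * L := by
    have : s * L ≤ 1 / 2 * L := mul_le_mul_of_nonneg_right hs1 hL0.le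
    linarith
  obtain ⟨P, hP⟩ : ∃ P, P = PP B (s / 8) (2 * L) u := ⟨_, rfl⟩
  have hPm : ∀ p ∈ P, p.Prime ∧ B < p ∧ |Real.log p - u| ≤ s / 8 * (2 * L) := fun p hp => by
    rw [hP] at hp; exact mem_PP hp
  have hcard : (P.card : ℝ) ≤ Real.exp (3 * L) := by
    rw [hP]
    refine card_PP (Real.one_le_exp (by positivity)) ?_
    rw [Real.log_exp]; exact hexp2
  -- parameters
  obtain ⟨κ, hκ⟩ : ∃ κ, κ = T / L := ⟨_, rfl⟩
  obtain ⟨ρ, hρ⟩ : ∃ ρ, ρ = L ^ 2 / T := ⟨_, rfl⟩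
  have hκL : L ≤ κ := by
    rw [hκ, le_div_iff₀ hL0]; nlinarith
  have hκ1 : 0 < κ := by linarith
  have hκd : κ ≤ d0 * T := by
    rw [hκ, div_le_iff₀ hL0]
    have : 1 ≤ d0 * L := by
      rw [div_le_iff₀ hd0] at t4; linarith
    nlinarith
  have hρ0 : 0 < ρ := by rw [hρ]; positivity
  have hρ1 : ρ ≤ 1 := by rw [hρ, div_le_one hT0]; exact hTL
  have hκρ : κ * ρ = L := by rw [hκ, hρ]; field_simp
  have hlen : 12 * ρ * Real.exp (u + s / 8 * (2 * L)) + 1 ≤ e0 * (X : ℝ) ^ 2 := by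
    have e1 : Real.exp (u + s / 8 * (2 * L)) ≤ (X : ℝ) ^ 2 * T * Real.exp (-(3 / 4 * s * L)) := by
      refine (Real.exp_le_exp.2 hexp1).trans (le_of_eq ?_)
      rw [show 2 * lX + lT - 3 / 4 * s * L = lX + lX + lT + -(3 / 4 * s * L) by ring,
        Real.exp_add, Real.exp_add, Real.exp_add, hlX, hlT, Real.exp_log hX0, Real.exp_log hT0]
      ring
    have e2 : 12 * ρ * Real.exp (u + s / 8 * (2 * L)) ≤ e0 / 2 * (X : ℝ) ^ 2 := by
      calc _ ≤ 12 * ρ * ((X : ℝ) ^ 2 * T * Real.exp (-(3 / 4 * s * L))) :=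
            mul_le_mul_of_nonneg_left e1 (by positivity)
        _ = (12 * L ^ 2 * Real.exp (-(3 / 4 * s * L))) * (X : ℝ) ^ 2 := by
            rw [hρ]; field_simp
        _ ≤ _ := mul_le_mul_of_nonneg_right t1 (by positivity)
    have e3 : 1 ≤ e0 / 2 * (X : ℝ) ^ 2 := by
      rw [div_le_iff₀ he0] at hXe0
      nlinarith
    linarith
  have hW0 : 0 ≤ WM Q0 X Y := H385.primFamM_nonneg _ _ _ _ (fun _ _ => zero_le_one)
  have hWs : ∑ i ∈ primSetM Q0 X Y, (1 / (i.1 : ℝ) ^ 2) = WM Q0 X Y := by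
    unfold WM; rw [primFamM_eq]; simp
  obtain ⟨W, hWd⟩ : ∃ W, W = WM Q0 X Y := ⟨_, rfl⟩
  rw [← hWd] at hW0 hWs ⊢
  have hω : ∀ i ∈ primSetM Q0 X Y, 0 ≤ (fun i : IX => 1 / (i.1 : ℝ) ^ 2) i := fun i _ => by positivity
  have hz : ∀ (i : IX) (p : ℕ), ‖(fun (i : IX) (p : ℕ) => i.2 (p : ZMod i.1)) i p‖ ≤ 1 :=
    fun i p => DirichletCharacter.norm_le_one _ _
  -- kernel estimate
  have hker := hg IX ℕ (primSetM Q0 X Y) (fun i => 1 / (i.1 : ℝ) ^ 2)
    (fun i p => i.2 (p : ZMod i.1)) P (fun p => Real.log p) ((1 + δ) * W) κ ρ hω hz hκ1 hρ0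
    (by positivity) (fun v x hx => by
      rw [hP, hWd]
      exact block_estM hp X Y hXn hKX (s / 8) (2 * L) u ρ hρ0 hρ1 hδ0.le hlen v x hx)
  rw [hWs, hκρ] at hker
  obtain ⟨A, hA⟩ : ∃ A, A = (1 + δ) * ((1 + δ) * W) + δ * W := ⟨_, rfl⟩
  have hA0 : 0 ≤ A := by rw [hA]; positivity
  have hker2 : ∀ x : ℕ → ℂ, ∑ i ∈ primSetM Q0 X Y, 1 / (i.1 : ℝ) ^ 2 *
      (∑ p ∈ P, ∑ q ∈ P, (i.2 (p : ZMod i.1) * x p) *
        (starRingEnd ℂ) (i.2 (q : ZMod i.1) * x q) *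
        ((Real.exp (-(κ ^ 2 * (Real.log p - Real.log q) ^ 2 / 4)) : ℝ) : ℂ)).re ≤
      A * ∑ p ∈ P, ‖x p‖ ^ 2 := by
    intro x
    refine (hker x).trans ?_
    refine mul_le_mul_of_nonneg_right ?_ (Finset.sum_nonneg fun _ _ => by positivity)
    rw [hA]
    have e1 : Cg * W * P.card * Real.exp (-L ^ 2 / 2) ≤ δ * W := by
      calc _ ≤ Cg * W * Real.exp (3 * L) * Real.exp (-L ^ 2 / 2) := by gcongr
        _ = (Cg * (Real.exp (3 * L) * Real.exp (-L ^ 2 / 2))) * W := by ring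
        _ ≤ _ := mul_le_mul_of_nonneg_right t2 hW0
    linarith
  -- window lemma
  have hwin1 := hw IX ℕ (primSetM Q0 X Y) (fun i => 1 / (i.1 : ℝ) ^ 2)
    (fun i p => i.2 (p : ZMod i.1)) P (fun p => Real.log p) (fun p => c p * ((yy p : ℝ) : ℂ)) A κ T u
    hω hz (fun p _ => Real.log_natCast_nonneg p) (t3.trans hκL) hκd hA0 hker2
  -- the pointwise bound
  obtain ⟨M, hM⟩ : ∃ M : IX → ℝ → ℂ, M = fun i t => ∑ p ∈ P, i.2 (p : ZMod i.1) *
    (c p * ((yy p : ℝ) : ℂ)) * bt T u t (Real.log p) := ⟨_, rfl⟩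
  have hpt : ∀ t : ℝ, primFamM Q0 X Y (fun q χ => ‖∑' n : ℕ, (χ (n : ZMod q) * c n *
        (ArithmeticFunction.vonMangoldt n : ℂ)) * ((Real.sqrt n : ℂ)⁻¹ * bt T u t (Real.log n))‖ ^ 2) ≤
      (1 + δ) * ∑ i ∈ primSetM Q0 X Y, 1 / (i.1 : ℝ) ^ 2 * ‖M i t‖ ^ 2 +
        (1 + 1 / δ) * ((D * CR) ^ 2 * W) * wt T t ^ 2 := by
    intro t
    rw [primFamM_eq]
    have hwn := wt_nonneg T t hT0.le
    have hk : ∀ i ∈ primSetM Q0 X Y, 1 / (i.1 : ℝ) ^ 2 * ‖∑' n : ℕ, (i.2 (n : ZMod i.1) * c n *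
        (ArithmeticFunction.vonMangoldt n : ℂ)) * ((Real.sqrt n : ℂ)⁻¹ * bt T u t (Real.log n))‖ ^ 2 ≤
        1 / (i.1 : ℝ) ^ 2 * ((1 + δ) * ‖M i t‖ ^ 2 + (1 + 1 / δ) * (D * CR * wt T t) ^ 2) := by
      intro i hi
      refine mul_le_mul_of_nonneg_left ?_ (by positivity)
      have hDc : (D : ℂ) ≠ 0 := by exact_mod_cast hD0.ne'
      have h1 := hr (2 * L) u T t (fun n => (i.2 (n : ZMod i.1) * c n *
        (ArithmeticFunction.vonMangoldt n : ℂ)) / (D : ℂ)) (by linarith) hu0 hu2L hT0.le (fun n => by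
          rw [norm_div, norm_mul, norm_mul, Complex.norm_real, Complex.norm_real, Real.norm_eq_abs,
            Real.norm_eq_abs, abs_of_pos hD0,
            abs_of_nonneg ArithmeticFunction.vonMangoldt_nonneg, div_le_iff₀ hD0]
          by_cases hpp : IsPrimePow n
          · have k1 : ‖i.2 (n : ZMod i.1)‖ * ‖c n‖ ≤ 1 * D :=
              mul_le_mul (DirichletCharacter.norm_le_one _ _) (hc n hpp) (norm_nonneg _) zero_le_one
            have k2 : (0 : ℝ) ≤ ArithmeticFunction.vonMangoldt n :=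
              ArithmeticFunction.vonMangoldt_nonneg
            calc _ ≤ (1 * D) * ArithmeticFunction.vonMangoldt n := mul_le_mul_of_nonneg_right k1 k2
              _ = _ := by ring
          · rw [ArithmeticFunction.vonMangoldt_eq_zero_iff.2 hpp]
            simp)
      have hsc : ∀ n : ℕ, (i.2 (n : ZMod i.1) * c n * (ArithmeticFunction.vonMangoldt n : ℂ)) *
          ((Real.sqrt n : ℂ)⁻¹ * bt T u t (Real.log n)) = (D : ℂ) * ((i.2 (n : ZMod i.1) * c n *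
          (ArithmeticFunction.vonMangoldt n : ℂ)) / (D : ℂ) *
          ((Real.sqrt n : ℂ)⁻¹ * bt T u t (Real.log n))) := by
        intro n
        field_simp
      have h2 : (D : ℂ) * ∑ p ∈ PP B (s / 8) (2 * L) u, (i.2 (p : ZMod i.1) * c p *
          (ArithmeticFunction.vonMangoldt p : ℂ)) / (D : ℂ) *
          ((Real.sqrt p : ℂ)⁻¹ * bt T u t (Real.log p)) = M i t := by
        rw [hM, ← hP, Finset.mul_sum]
        refine Finset.sum_congr rfl fun p hp => ?_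
        rw [← hsc p]
        unfold yy
        push_cast
        rw [div_eq_mul_inv]
        ring
      have h1' : ‖(∑' n : ℕ, (i.2 (n : ZMod i.1) * c n * (ArithmeticFunction.vonMangoldt n : ℂ)) *
          ((Real.sqrt n : ℂ)⁻¹ * bt T u t (Real.log n))) - M i t‖ ≤ D * CR * wt T t := by
        rw [tsum_congr hsc, tsum_mul_left, ← h2, ← mul_sub, norm_mul, Complex.norm_real,
          Real.norm_eq_abs, abs_of_pos hD0, mul_assoc]
        exact mul_le_mul_of_nonneg_left h1 hD0.le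
      have h3 := norm_le_norm_add_norm_sub' (∑' n : ℕ, (i.2 (n : ZMod i.1) * c n *
        (ArithmeticFunction.vonMangoldt n : ℂ)) * ((Real.sqrt n : ℂ)⁻¹ * bt T u t (Real.log n)))
        (M i t)
      exact (pow_le_pow_left₀ (norm_nonneg _) (h3.trans (add_le_add le_rfl h1')) 2).trans
        (sq_add_le hδ0 _ _)
    refine (Finset.sum_le_sum hk).trans (le_of_eq ?_)
    rw [Finset.mul_sum, ← hWs, Finset.mul_sum, Finset.mul_sum, Finset.sum_mul,
      ← Finset.sum_add_distrib]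
    refine Finset.sum_congr rfl fun i _ => ?_
    ring
  -- integrability
  have hTκ : T ≤ Real.exp (L ^ 2) := by
    have : T = Real.exp lT := by rw [hlT, Real.exp_log hT0]
    rw [this]
    apply Real.exp_le_exp.2
    nlinarith
  have hMi : ∀ i : IX, Integrable (fun t => ‖M i t‖ ^ 2) := by
    intro i
    rw [hM]
    exact main_sum_integrable P (fun p => i.2 (p : ZMod i.1) * (c p * ((yy p : ℝ) : ℂ)))
      (fun p => Real.log p) t5 hT1 hTκ
  have hi1 : Integrable (fun t => ∑ i ∈ primSetM Q0 X Y, 1 / (i.1 : ℝ) ^ 2 * ‖M i t‖ ^ 2) :=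
    integrable_finsetSum _ fun i _ => (hMi i).const_mul _
  have hi2 : Integrable (fun t => wt T t ^ 2) := (hwt T hT0.le).1
  have hint : Integrable (fun t => (1 + δ) * ∑ i ∈ primSetM Q0 X Y, 1 / (i.1 : ℝ) ^ 2 * ‖M i t‖ ^ 2 +
      (1 + 1 / δ) * ((D * CR) ^ 2 * W) * wt T t ^ 2) := (hi1.const_mul _).add (hi2.const_mul _)
  refine (integral_mono_of_nonneg (Eventually.of_forall fun t =>
    H385.primFamM_nonneg _ _ _ _ fun q χ => by positivity) hint
    (Eventually.of_forall hpt)).trans ?_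
  rw [integral_add (hi1.const_mul _) (hi2.const_mul _), integral_const_mul, integral_const_mul]
  have hcP : ∀ p ∈ P, ‖c p‖ ≤ D := fun p hp => hc p (hPm p hp).1.isPrimePow
  have s1 : ∑ p ∈ P, ‖c p * ((yy p : ℝ) : ℂ)‖ ^ 2 * Real.exp (-(u - Real.log p) ^ 2) ≤
      SWu c 1 u := by
    have h1 := (swu1_summable c hD1 hc u).sum_le_tsum P (fun n _ => by positivity)
    unfold SWu
    refine le_trans (le_of_eq (Finset.sum_congr rfl fun p _ => ?_)) h1
    rw [norm_mul, mul_pow, Complex.norm_real, Real.norm_eq_abs, sq_abs, yy_sq, one_mul]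
    ring
  have s2 : ∑ p ∈ P, ‖c p * ((yy p : ℝ) : ℂ)‖ ^ 2 * Real.exp (-(u - Real.log p) ^ 2 / 2) ≤
      D ^ 2 * C5 * (u + 1) := by
    obtain ⟨h1, h2⟩ := hcr u hu0
    have h3 : ∑ p ∈ P, ‖c p * ((yy p : ℝ) : ℂ)‖ ^ 2 * Real.exp (-(u - Real.log p) ^ 2 / 2) ≤
        D ^ 2 * ∑ p ∈ P, ((ArithmeticFunction.vonMangoldt p) ^ 2 / p *
          Real.exp (-(u - Real.log p) ^ 2 / 2)) := by
      rw [Finset.mul_sum]
      refine Finset.sum_le_sum fun p hp => ?_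
      rw [norm_mul, mul_pow, Complex.norm_real, Real.norm_eq_abs, sq_abs, yy_sq]
      have k1 : ‖c p‖ ^ 2 ≤ D ^ 2 := pow_le_pow_left₀ (norm_nonneg _) (hcP p hp) 2
      rw [mul_assoc]
      exact mul_le_mul_of_nonneg_right k1 (by positivity)
    have h4 : ∑ p ∈ P, ((ArithmeticFunction.vonMangoldt p) ^ 2 / p *
          Real.exp (-(u - Real.log p) ^ 2 / 2)) ≤ C5 * (u + 1) :=
      (h1.sum_le_tsum P (fun n _ => by positivity)).trans h2
    calc _ ≤ _ := h3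
      _ ≤ D ^ 2 * (C5 * (u + 1)) := mul_le_mul_of_nonneg_left h4 (by positivity)
      _ = _ := by ring
  have s3 : Real.exp (-κ ^ 2 / 16) * (∑ p ∈ P, ‖c p * ((yy p : ℝ) : ℂ)‖) ^ 2 ≤
      D ^ 2 * (4 * Real.exp 144) := by
    have h1 : ∑ p ∈ P, ‖c p * ((yy p : ℝ) : ℂ)‖ ≤ 2 * D * Real.exp (3 * L) := by
      have h2 : ∑ p ∈ P, ‖c p * ((yy p : ℝ) : ℂ)‖ ≤ ∑ _p ∈ P, (D * 2 : ℝ) :=
        Finset.sum_le_sum fun p hp => by
          rw [norm_mul, Complex.norm_real, Real.norm_eq_abs]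
          exact mul_le_mul (hcP p hp) (yy_abs p) (abs_nonneg _) hD0.le
      rw [Finset.sum_const, nsmul_eq_mul] at h2
      have h3 := mul_le_mul_of_nonneg_right hcard (show 0 ≤ D * 2 by positivity)
      linarith
    have h4 : (∑ p ∈ P, ‖c p * ((yy p : ℝ) : ℂ)‖) ^ 2 ≤ (2 * D * Real.exp (3 * L)) ^ 2 :=
      pow_le_pow_left₀ (Finset.sum_nonneg fun p _ => norm_nonneg _) h1 2
    have h5 : Real.exp (-κ ^ 2 / 16) ≤ Real.exp (-L ^ 2 / 16) := by
      apply Real.exp_le_exp.2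
      have : L ^ 2 ≤ κ ^ 2 := pow_le_pow_left₀ hL0.le hκL 2
      linarith
    calc _ ≤ Real.exp (-L ^ 2 / 16) * (2 * D * Real.exp (3 * L)) ^ 2 :=
          mul_le_mul h5 h4 (by positivity) (Real.exp_pos _).le
      _ = D ^ 2 * (4 * Real.exp (-L ^ 2 / 16 + (3 * L + 3 * L))) := by
          rw [Real.exp_add, Real.exp_add]; ring
      _ ≤ _ := by
          refine mul_le_mul_of_nonneg_left (mul_le_mul_of_nonneg_left (Real.exp_le_exp.2 ?_)
            (by norm_num)) (by positivity)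
          nlinarith [sq_nonneg (L - 48)]
  have hwtI := (hwt T hT0.le).2
  have hTp : 0 ≤ T / (2 * Real.pi) := by positivity
  have hI1n := swu1_nonneg c u
  have hwin2 : ∫ t : ℝ, ∑ i ∈ primSetM Q0 X Y, 1 / (i.1 : ℝ) ^ 2 * ‖M i t‖ ^ 2 ≤
      (1 + δ) * A * (T / (2 * Real.pi)) * SWu c 1 u +
      C2 * A * κ * (D ^ 2 * C5 * (u + 1)) + C2 * W * T * (D ^ 2 * (4 * Real.exp 144)) := by
    rw [hM]
    refine hwin1.trans ?_
    have b1 := mul_le_mul_of_nonneg_left s1 (show 0 ≤ (1 + δ) * A * (T / (2 * Real.pi)) by positivity)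
    have b2 := mul_le_mul_of_nonneg_left s2 (show 0 ≤ C2 * A * κ by positivity)
    have b3 := mul_le_mul_of_nonneg_left s3 (show 0 ≤ C2 * W * T by positivity)
    rw [hWs]
    have b4 : C2 * W * T * Real.exp (-κ ^ 2 / 16) * (∑ p ∈ P, ‖c p * ((yy p : ℝ) : ℂ)‖) ^ 2 =
      C2 * W * T * (Real.exp (-κ ^ 2 / 16) * (∑ p ∈ P, ‖c p * ((yy p : ℝ) : ℂ)‖) ^ 2) := by ring
    rw [b4]
    linarith
  have hfin := num_ms (δ := δ) (s := s) (Tp := T / (2 * Real.pi))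
    (I1 := SWu c 1 u) (C2 := C2) (C5 := D ^ 2 * C5) (Cw := D ^ 2 * (4 * Real.exp 144)) (L := L)
    (u := u) (T := T) (W := W) (CR := D * CR) (C3 := C3) (κ := κ)
    hδ0 hδ hs1 hTp hI1n hC2 (by positivity) t5 hu0 hu2L hκ hT1 hW0 (by positivity) (by positivity) hC3
  rw [← hA] at hfin
  refine le_trans ?_ hfin
  refine add_le_add (mul_le_mul_of_nonneg_left hwin2 (by linarith)) ?_
  exact mul_le_mul_of_nonneg_left hwtI (by positivity)

end Pool.Agent.N880.HE
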