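import Pool.Agent.N880.HE.Stm

/-!
# Satake traces are bounded by 2 (by helper374)
-/

set_option autoImplicit false

namespace Pool.Agent.N880.HE

open W388

/-- **Satake traces are bounded by 2.** -/
theorem ram_main : S_ram := by
  intro N hN lam hl h2 h1 n hn
  obtain ⟨p, k, hp, hk, rfl⟩ := hn
  have hp' : p.Prime := hp.nat_prime
  have hmf : (p ^ k).minFac = p := hp'.pow_minFac hk.ne'
  unfold cS
  rw [hmf]
  by_cases hd : p ∣ N
  · rw [if_neg (fun h => h.2 hd), sub_zero]
    have h3 : ∀ j, lam (p ^ j) = lam p ^ j ∧ lam (p ^ (j + 1)) = lam p ^ (j + 1) := by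
      intro j
      induction j with
      | zero => simp [hl.one]
      | succ j ih =>
        refine ⟨ih.2, ?_⟩
        rw [hl.pow p j hp', if_pos hd, sub_zero, ih.2]
        ring
    rw [(h3 k).1, abs_pow]
    have h4 := pow_le_one₀ (abs_nonneg (lam p)) (h1 p hp' hd) (n := k)
    linarith
  · have hx := h2 p hp' hd
    have hx' := abs_le.1 hx
    obtain ⟨θ, hθ⟩ : ∃ θ : ℝ, lam p = 2 * Real.cos θ :=
      ⟨Real.arccos (lam p / 2), by rw [Real.cos_arccos (by linarith) (by linarith)]; ring⟩
    have hrec : ∀ j, lam (p ^ (j + 2)) = lam p * lam (p ^ (j + 1)) - lam (p ^ j) := fun j => by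
      rw [hl.pow p j hp', if_neg hd]
    have e0 : lam (p ^ 0) = 1 := by rw [pow_zero, hl.one]
    have e1 : lam (p ^ 1) = lam p := by rw [pow_one]
    have h3 : ∀ j : ℕ, lam (p ^ (j + 2)) - lam (p ^ j) = 2 * Real.cos (((j : ℝ) + 2) * θ) ∧
        lam (p ^ (j + 3)) - lam (p ^ (j + 1)) = 2 * Real.cos (((j : ℝ) + 3) * θ) := by
      intro j
      induction j with
      | zero =>
        have e2 : lam (p ^ (0 + 2)) = lam p * lam p - 1 := by rw [hrec, zero_add, e1, e0]
        have e3 : lam (p ^ (0 + 3)) = lam p * (lam p * lam p - 1) - lam p := by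
          have := hrec 1
          rw [show 1 + 2 = 0 + 3 by norm_num, show 1 + 1 = 0 + 2 by norm_num, e2, e1] at this
          exact this
        rw [e2, e3, e0, zero_add, e1, hθ]
        constructor
        · push_cast
          rw [zero_add, Real.cos_two_mul]
          ring
        · push_cast
          rw [zero_add, Real.cos_three_mul]
          ring
      | succ j ih =>
        refine ⟨?_, ?_⟩
        · have := ih.2
          push_cast
          rw [show j + 1 + 2 = j + 3 by ring, show ((j : ℝ) + 1 + 2) = (j : ℝ) + 3 by ring]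
          exact this
        · have e2 := hrec (j + 2)
          have e3 := hrec j
          have h5 : lam (p ^ (j + 1 + 3)) - lam (p ^ (j + 1 + 1)) =
              lam p * (lam (p ^ (j + 3)) - lam (p ^ (j + 1))) -
                (lam (p ^ (j + 2)) - lam (p ^ j)) := by
            rw [show j + 1 + 3 = j + 2 + 2 by ring, show j + 1 + 1 = j + 2 by ring, e2,
              show j + 2 + 1 = j + 3 by ring]
            linarith
          rw [h5, ih.1, ih.2, hθ]
          have e4 : (((j + 1 : ℕ) : ℝ) + 3) * θ = ((j : ℝ) + 3) * θ + θ := by push_cast; ring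
          have e5 : ((j : ℝ) + 2) * θ = ((j : ℝ) + 3) * θ - θ := by ring
          rw [e4, e5, Real.cos_add, Real.cos_sub]
          ring
    rcases Nat.lt_or_ge k 2 with h | h
    · have hk1 : k = 1 := by omega
      subst hk1
      rw [if_neg, sub_zero, pow_one]
      · exact hx
      · rintro ⟨h6, -⟩
        rw [Nat.pow_dvd_pow_iff_le_right hp'.one_lt] at h6
        omega
    · obtain ⟨j, rfl⟩ := Nat.exists_eq_add_of_le h
      have h6 : p ^ 2 ∣ p ^ (2 + j) := pow_dvd_pow _ (by omega)
      rw [if_pos ⟨h6, hd⟩, pow_add, Nat.mul_div_cancel_left _ (pow_pos hp'.pos 2), ← pow_add,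
        add_comm 2 j, (h3 j).1, abs_mul]
      have h7 := Real.abs_cos_le_one (((j : ℝ) + 2) * θ)
      rw [abs_of_pos (by norm_num : (0 : ℝ) < 2)]
      linarith

end Pool.Agent.N880.HE
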