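import Pool.Agent.N880.HE.Core
import Pool.Agent.N880.HE.Ms
import Pool.Agent.N880.HE.Prm
import Pool.Agent.N880.HE.Blk
import Pool.Agent.N880.HE.Ram
import Pool.Agent.N880.HD.Fin
import Pool.Agent.W388.TW.Final

/-! # Final form: twists of a newform of weight `k` by all primitive Dirichlet characters -/

set_option autoImplicit false
set_option maxHeartbeats 4000000

open Complex Filter Topology MeasureTheory Set UpperHalfPlane MatrixGroups CongruenceSubgroup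

namespace Pool.Agent.N880.HE

open H385 (primFamM Rw primFamM_lin)
open H370 (NN Nd Ns)
open W388 (TwE SelE cS lamf IsNewf rad rad_squarefree coprime_rad primFamM_rad newf_twists)
open Pool.Agent.N880.HD (cH const_main)

theorem fin2_main (A : ℝ) (hA : 1 ≤ A) (M : ℕ) (hM : Squarefree M)
    (c : ℕ → ℂ) (hc : ∀ n, IsPrimePow n → ‖c n‖ ≤ 2)
    (F : (q : ℕ) → DirichletCharacter ℂ q → ℂ → ℂ) (hF : TwE 2 A M c F) (hS : SelE c)
    (τ ε : ℝ) (hτ : 0 ≤ τ) (hε : 0 < ε) :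
    ∃ K η X0 : ℝ, 1 ≤ K ∧ 0 < η ∧ 1 ≤ X0 ∧
    ∀ (X Y : ℕ) (T : ℝ), X0 ≤ X → K * X ≤ Y → (Y : ℝ) ≤ (X : ℝ) ^ (1 + η) →
      4 * (Real.log X) ^ 2 ≤ T → T ≤ (X : ℝ) ^ τ →
      (2 - cH ((2 + τ) / (2 + 2 * τ)) - ε) *
          primFamM M X Y (fun q χ => (NN (F q χ) T (2 * T) : ℝ)) ≤
        primFamM M X Y (fun q χ => (Ns (F q χ) T (2 * T) : ℝ)) ∧
      (3 - cH ((2 + τ) / (2 + 2 * τ)) - ε) / 2 *
          primFamM M X Y (fun q χ => (NN (F q χ) T (2 * T) : ℝ)) ≤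
        primFamM M X Y (fun q χ => (Nd (F q χ) T (2 * T) : ℝ)) := by
  have h1τ : 0 < 1 + τ := by linarith
  have hh0 : 0 < (2 + τ) / (2 + 2 * τ) := by positivity
  have hh2 : (2 + τ) / (2 + 2 * τ) ≤ 2 := by
    rw [div_le_iff₀ (by linarith)]; linarith
  obtain ⟨g1, g2, g3⟩ := const_main ((2 + τ) / (2 + 2 * τ)) hh0 hh2
  have hms := msE_main (primM_main blockM_main Pool.Agent.N880.HD.cop_main)
    Pool.Agent.N880.HD.gauss_main Pool.Agent.N880.HD.winC_main Pool.Agent.N880.QF.Rest.rest_main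
  obtain ⟨K, η, X0, hK, hη, hX0, H⟩ := coreE_main hms 2 A (by norm_num) hA M hM c 2 (by norm_num)
    hc F hF hS τ (Real.sqrt 2 * ((2 + τ) / (2 + 2 * τ)))
    (cH ((2 + τ) / (2 + 2 * τ)) + ε) hτ g1 g2 (by
      have e : (2 + τ) / (1 + τ) = 2 * ((2 + τ) / (2 + 2 * τ)) := by
        field_simp
      rw [e]
      have : 2 * Rw (Real.sqrt 2 * ((2 + τ) / (2 + 2 * τ))) 0 / (2 * ((2 + τ) / (2 + 2 * τ))) +
          2 * (2 * ((2 + τ) / (2 + 2 * τ))) *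
            (∫ α in (0 : ℝ)..1, α * Rw (Real.sqrt 2 * ((2 + τ) / (2 + 2 * τ))) α) / 2 =
          cH ((2 + τ) / (2 + 2 * τ)) := by
        unfold cH
        rw [← g3, mul_div_mul_left _ _ (two_ne_zero' ℝ)]
        ring
      rw [this]
      linarith)
  refine ⟨K, η, X0, hK, hη, hX0, ?_⟩
  intro X Y T a1 a2 a3 a4 a5
  obtain ⟨k1, k2⟩ := H X Y T a1 a2 a3 a4 a5
  have e1 := primFamM_lin M X Y 2 1 (fun q χ => (NN (F q χ) T (2 * T) : ℝ))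
    (fun q χ => (Ns (F q χ) T (2 * T) : ℝ))
  have e2 := primFamM_lin M X Y 3 2 (fun q χ => (NN (F q χ) T (2 * T) : ℝ))
    (fun q χ => (Nd (F q χ) T (2 * T) : ℝ))
  simp only [one_mul] at e1
  rw [e1] at k1
  rw [e2] at k2
  constructor
  · linarith
  · linarith

/-- **Main theorem**, analytic normalisation. -/
theorem newf_main {N : ℕ} [NeZero N] {k : ℤ} (hk : 1 ≤ k)
    {f : CuspForm (Gamma0 N : Subgroup (GL (Fin 2) ℝ)) k} {w : ℝ} (hf : IsNewf N k f w)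
    (hgood : ∀ p : ℕ, p.Prime → ¬ p ∣ N → |lamf f p| ≤ 2)
    (hbad : ∀ p : ℕ, p.Prime → p ∣ N → |lamf f p| ≤ 1) :
    ∃ F : (q : ℕ) → DirichletCharacter ℂ q → ℂ → ℂ,
      (∀ (q : ℕ) (χ : DirichletCharacter ℂ q), 1 ≤ q → Nat.Coprime q N → χ.IsPrimitive →
        Differentiable ℂ (F q χ) ∧ ∀ s : ℂ, 1 < s.re →
          HasProd (fun p : Nat.Primes =>
            (1 - χ ((p : ℕ) : ZMod q) * (lamf f p : ℂ) * ((p : ℕ) : ℂ) ^ (-s) +
              (if (p : ℕ) ∣ N then 0 else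
                χ ((p : ℕ) : ZMod q) ^ 2 * ((p : ℕ) : ℂ) ^ (-2 * s)))⁻¹) (F q χ s)) ∧
      ∀ τ ε : ℝ, 0 ≤ τ → 0 < ε → ∃ K η X0 : ℝ, 1 ≤ K ∧ 0 < η ∧ 1 ≤ X0 ∧
      ∀ (X Y : ℕ) (T : ℝ), X0 ≤ X → K * X ≤ Y → (Y : ℝ) ≤ (X : ℝ) ^ (1 + η) →
        4 * (Real.log X) ^ 2 ≤ T → T ≤ (X : ℝ) ^ τ →
        (2 - cH ((2 + τ) / (2 + 2 * τ)) - ε) *
            primFamM N X Y (fun q χ => (NN (F q χ) T (2 * T) : ℝ)) ≤
          primFamM N X Y (fun q χ => (Ns (F q χ) T (2 * T) : ℝ)) ∧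
        (3 - cH ((2 + τ) / (2 + 2 * τ)) - ε) / 2 *
            primFamM N X Y (fun q χ => (NN (F q χ) T (2 * T) : ℝ)) ≤
          primFamM N X Y (fun q χ => (Nd (F q χ) T (2 * T) : ℝ)) := by
  obtain ⟨A, F, hA, h1, h2, h3⟩ := newf_twists Pool.Agent.W440.TW.t_twist
    Pool.Agent.W108.TW.t_mellin Pool.Agent.W820.TW.t_fe W388.p_dir W388.p_nzr W388.p_rs
    W388.p_sel hk hf
  have hN : N ≠ 0 := NeZero.ne N
  have h1' : TwE 2 A (rad N) (fun n => (cS N (lamf f) n : ℂ)) F := by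
    intro q χ hq hqN hχ
    exact h1 q χ hq ((coprime_rad hN q).mp hqN) hχ
  have hc : ∀ n, IsPrimePow n → ‖((cS N (lamf f) n : ℝ) : ℂ)‖ ≤ 2 := by
    intro n hn
    rw [Complex.norm_real, Real.norm_eq_abs]
    exact ram_main N (Nat.pos_of_ne_zero hN) (lamf f) (W388.heckeSeq_lamf hf) hgood hbad n hn
  refine ⟨F, h3, ?_⟩
  intro τ ε hτ hε
  obtain ⟨K, η, X0, hK, hη, hX0, h⟩ := fin2_main A hA (rad N) (rad_squarefree N) _ hc F h1' h2
    τ ε hτ hε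
  refine ⟨K, η, X0, hK, hη, hX0, fun X Y T a1 a2 a3 a4 a5 => ?_⟩
  have := h X Y T a1 a2 a3 a4 a5
  simp only [primFamM_rad hN] at this
  exact this

end Pool.Agent.N880.HE
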