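import Pool.Agent.N880.HD.Fin

/-! # Numerical bounds for the function of Montgomery and Taylor -/

set_option autoImplicit false

namespace Pool.Agent.N880.HE

open Pool.Agent.N880.HD (cH)

lemma sin_ge_cubic {x : ℝ} (hx : 0 ≤ x) : x - x ^ 3 / 6 ≤ Real.sin x := by
  have hmono : MonotoneOn (fun y : ℝ => Real.sin y - (y - y ^ 3 / 6)) (Set.Ici 0) := by
    apply monotoneOn_of_deriv_nonneg (convex_Ici 0)
    · fun_prop
    · intro y _
      have h : HasDerivAt (fun y : ℝ => Real.sin y - (y - y ^ 3 / 6))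
          (Real.cos y - (1 - (3 * y ^ 2 * 1) / 6)) y := by
        have h1 := (hasDerivAt_id y).pow 3
        simp only [id] at h1
        exact (Real.hasDerivAt_sin y).sub ((hasDerivAt_id y).sub (by simpa using h1.div_const 6))
      exact h.differentiableAt.differentiableWithinAt
    · intro y _
      have h : HasDerivAt (fun y : ℝ => Real.sin y - (y - y ^ 3 / 6))
          (Real.cos y - (1 - (3 * y ^ 2 * 1) / 6)) y := by
        have h1 := (hasDerivAt_id y).pow 3
        simp only [id] at h1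
        exact (Real.hasDerivAt_sin y).sub ((hasDerivAt_id y).sub (by simpa using h1.div_const 6))
      rw [h.deriv]
      have := Real.one_sub_sq_div_two_le_cos (x := y)
      linarith
  have := hmono (Set.mem_Ici.mpr le_rfl) (Set.mem_Ici.mpr hx) hx
  simp at this
  linarith

lemma cos_le_quartic {x : ℝ} (hx : 0 ≤ x) : Real.cos x ≤ 1 - x ^ 2 / 2 + x ^ 4 / 24 := by
  have key : ∀ y : ℝ, HasDerivAt (fun y : ℝ => (1 - y ^ 2 / 2 + y ^ 4 / 24) - Real.cos y)
      ((-(2 * y) / 2 + (4 * y ^ 3) / 24) - (-Real.sin y)) y := by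
    intro y
    have h2 : HasDerivAt (fun y : ℝ => y ^ 2) (2 * y) y := by simpa using hasDerivAt_pow 2 y
    have h4 : HasDerivAt (fun y : ℝ => y ^ 4) (4 * y ^ 3) y := by simpa using hasDerivAt_pow 4 y
    have h5 := (((h2.div_const 2).const_sub 1).add (h4.div_const 24)).sub (Real.hasDerivAt_cos y)
    exact h5.congr_deriv (by ring)
  have hmono : MonotoneOn (fun y : ℝ => (1 - y ^ 2 / 2 + y ^ 4 / 24) - Real.cos y)
      (Set.Ici 0) := by
    apply monotoneOn_of_deriv_nonneg (convex_Ici 0)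
    · fun_prop
    · intro y _
      exact (key y).differentiableAt.differentiableWithinAt
    · intro y hy
      rw [(key y).deriv]
      rw [interior_Ici] at hy
      have := sin_ge_cubic (le_of_lt hy)
      linarith
  have := hmono (Set.mem_Ici.mpr le_rfl) (Set.mem_Ici.mpr hx) hx
  simp at this
  linarith

lemma cH_bound {h : ℝ} (h0 : 0 < h) (h1 : h ≤ 1) :
    cH h ≤ h / 2 + (1 - h ^ 2 / 4 + h ^ 4 / 96) / (h * (1 - h ^ 2 / 12)) := by
  have hs2 : Real.sqrt 2 ^ 2 = 2 := Real.sq_sqrt (by norm_num)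
  have hs0 : 0 < Real.sqrt 2 := Real.sqrt_pos.mpr (by norm_num)
  set x : ℝ := h / Real.sqrt 2 with hx
  have hx0 : 0 < x := by positivity
  have hx2 : x ^ 2 = h ^ 2 / 2 := by rw [hx, div_pow, hs2]
  have hx4 : x ^ 4 = h ^ 4 / 4 := by
    calc x ^ 4 = (x ^ 2) ^ 2 := by ring
      _ = h ^ 4 / 4 := by rw [hx2]; ring
  have hxs : x * Real.sqrt 2 = h := by rw [hx]; field_simp
  have hc := cos_le_quartic hx0.le
  have hs := sin_ge_cubic hx0.le
  have hh2 : h ^ 2 ≤ 1 := by nlinarith
  have hden : 0 < h * (1 - h ^ 2 / 12) := mul_pos h0 (by linarith)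
  have hs' : h * (1 - h ^ 2 / 12) ≤ Real.sin x * Real.sqrt 2 := by
    have e : h * (1 - h ^ 2 / 12) = (x - x ^ 3 / 6) * Real.sqrt 2 := by
      have : (x - x ^ 3 / 6) * Real.sqrt 2 = (x * Real.sqrt 2) * (1 - x ^ 2 / 6) := by ring
      rw [this, hxs, hx2]
      ring
    rw [e]
    exact mul_le_mul_of_nonneg_right hs hs0.le
  unfold cH
  rw [← hx, Real.cot_eq_cos_div_sin, div_div]
  have hnum : 0 ≤ 1 - h ^ 2 / 4 + h ^ 4 / 96 := by
    have h4 : 0 ≤ h ^ 4 := by positivity
    linarith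
  have : Real.cos x / (Real.sin x * Real.sqrt 2) ≤
      (1 - h ^ 2 / 4 + h ^ 4 / 96) / (h * (1 - h ^ 2 / 12)) := by
    apply div_le_div₀ hnum _ hden hs'
    rw [hx2, hx4] at hc
    linarith
  linarith

lemma cH_34 : cH (3 / 4) ≤ 1.582 := by
  refine (cH_bound (by norm_num) (by norm_num)).trans ?_
  norm_num

lemma cH_59 : cH (5 / 9) ≤ 1.985 := by
  refine (cH_bound (by norm_num) (by norm_num)).trans ?_
  norm_num

lemma cH_12 : cH (1 / 2) ≤ 2.1663 := by
  refine (cH_bound (by norm_num) (by norm_num)).trans ?_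
  norm_num

end Pool.Agent.N880.HE
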