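import Pool.Agent.N880.HD.Stm2
import Pool.Agent.H385R2.FinDA0
import Pool.Agent.W388.TW.Defs

/-!
Project HE (helper880): zeros of the twists of a fixed L-function of degree `d` by all primitive
Dirichlet characters with conductor in a logarithmically long window, heights up to an arbitrary
power of the conductor.  Statements of the leaves.
-/

set_option autoImplicit false

open Complex Filter Topology MeasureTheory Set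

namespace Pool.Agent.N880.HE

open H385 (c0 primFamM bt wt Rw WM cM)
open W388 (SelE SWu Wu HeckeSeq cS)

/-- the large sieve inequality with sharp constant for coefficients in a block `(M', M' + H]`,
conductors prime to `M` -/
def S_blockM : Prop := ∀ M P : ℕ, Squarefree (M * P) → ∃ C : ℝ, 0 < C ∧
  ∀ (X Y M' H : ℕ) (b : ℕ → ℂ), 1 ≤ X → X ≤ Y → (∀ n, ¬ Nat.Coprime n P → b n = 0) →
    (∀ n, n ≤ M' → b n = 0) → ∀ ε : ℝ, 0 < ε → ε ≤ 1 →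
  primFamM M X Y (fun q χ => ‖∑ n ∈ Finset.Icc 1 (M' + H), b n * χ (n : ZMod q)‖ ^ 2) ≤
    (1 + ε) * Real.exp (Real.pi * H / (X : ℝ) ^ 2) *
      (c0 * (∏ p ∈ M.primeFactors, ((p : ℝ) / (p + 1))) *
        (∏ p ∈ P.primeFactors, (1 - 1 / (p : ℝ) ^ 2)) * Real.log ((Y : ℝ) / X) + C) *
      ∑ n ∈ Finset.Icc 1 (M' + H), ‖b n‖ ^ 2
    + (2 / ε) * ∑ q ∈ Finset.Ioc X (P * Y), (1 / (q : ℝ)) *
      (∑ n ∈ (Finset.Icc 1 (M' + H)).filter (fun n => ¬ Nat.Coprime n q), ‖b n‖) ^ 2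

/-- the Satake traces are bounded by 2 -/
def S_ram : Prop := ∀ (N : ℕ), 0 < N → ∀ (lam : ℕ → ℝ), HeckeSeq N lam →
  (∀ p : ℕ, p.Prime → ¬ p ∣ N → |lam p| ≤ 2) → (∀ p : ℕ, p.Prime → p ∣ N → |lam p| ≤ 1) →
  ∀ n : ℕ, IsPrimePow n → |cS N lam n| ≤ 2

/-- large sieve over the primitive characters of conductor prime to `M` for coefficients in a
block, supported on primes `> B` -/
def S_primM : Prop := ∀ M : ℕ, Squarefree M → ∀ ε : ℝ, 0 < ε → ε ≤ 1 →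
  ∃ (B : ℕ) (K e0 : ℝ), 1 ≤ B ∧ 1 ≤ K ∧ 0 < e0 ∧
  ∀ (X Y M' H : ℕ) (b : ℕ → ℂ), 1 ≤ X → K * X ≤ Y → (H : ℝ) ≤ e0 * (X : ℝ) ^ 2 →
    (∀ n, b n ≠ 0 → n.Prime ∧ B < n) → (∀ n, n ≤ M' → b n = 0) →
    primFamM M X Y (fun q χ => ‖∑ n ∈ Finset.Icc 1 (M' + H), b n * χ (n : ZMod q)‖ ^ 2) ≤
      (1 + ε) * WM M X Y * ∑ n ∈ Finset.Icc 1 (M' + H), ‖b n‖ ^ 2

/-- the mean square over the family; `L = log (X T)` -/
def S_msE : Prop := ∀ M : ℕ, Squarefree M → ∀ (c : ℕ → ℂ) (D : ℝ), 1 ≤ D →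
  (∀ n, IsPrimePow n → ‖c n‖ ≤ D) → ∀ (τ s : ℝ), 0 ≤ τ → 0 < s → s ≤ 1 / 2 →
  ∃ K C X0 : ℝ, 1 ≤ K ∧ 0 < C ∧ 3 ≤ X0 ∧
  ∀ (X Y : ℕ) (T u : ℝ), X0 ≤ X → K * X ≤ Y →
    1 ≤ T → (Real.log (X * T)) ^ 2 ≤ T → T ≤ (X : ℝ) ^ τ → 0 ≤ u →
    u ≤ (1 - s) * ((2 + τ) / (1 + τ)) * Real.log (X * T) →
    ∫ t : ℝ, primFamM M X Y (fun q χ => ‖∑' n : ℕ, (χ (n : ZMod q) * c n *
        (ArithmeticFunction.vonMangoldt n : ℂ)) *
        ((Real.sqrt n : ℂ)⁻¹ * bt T u t (Real.log n))‖ ^ 2) ≤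
      (1 + s) * WM M X Y * (T / (2 * Real.pi)) * SWu c 1 u + C * WM M X Y * T

end Pool.Agent.N880.HE
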